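import Pool.Agent.Y703.CX.Stm

/-!
# The counting function of a family of sets of primes closed under subsets
-/

set_option autoImplicit false

open Finset
open scoped Classical

namespace Pool.Agent.Y488.CX

theorem sie_core (Y : ℕ) (L : Finset (Finset ℕ)) (hY : 1 ≤ Y)
    (h1 : ∀ S ∈ L, (∀ p ∈ S, p.Prime) ∧ ∏ p ∈ S, p ≤ Y)
    (h2 : ∀ S ∈ L, ∀ T, T ⊆ S → T ∈ L) :
    (L.card : ℝ) * Real.log Y ≤
      (1 + Real.log 4) * Y * ∑ S ∈ L, (1 : ℝ) / ((∏ p ∈ S, p : ℕ) : ℝ) := by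
  have Y0 : (0 : ℝ) < Y := by exact_mod_cast hY
  have P0 : ∀ S ∈ L, (0 : ℝ) < ((∏ p ∈ S, p : ℕ) : ℝ) := by
    intro S hS
    have : 0 < ∏ p ∈ S, p := Finset.prod_pos fun p hp => ((h1 S hS).1 p hp).pos
    exact_mod_cast this
  -- step one
  have e1 : (L.card : ℝ) * Real.log Y ≤
      ∑ S ∈ L, (∑ p ∈ S, Real.log p) + ∑ S ∈ L, (Y : ℝ) * (1 / ((∏ p ∈ S, p : ℕ) : ℝ)) := by
    rw [← sum_add_distrib, ← nsmul_eq_mul, ← sum_const]
    refine sum_le_sum fun S hS => ?_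
    have n0 := P0 S hS
    have h3 := Real.log_le_sub_one_of_pos (show (0 : ℝ) < Y / ((∏ p ∈ S, p : ℕ) : ℝ) by positivity)
    rw [Real.log_div Y0.ne' n0.ne'] at h3
    have h4 : Real.log ((∏ p ∈ S, p : ℕ) : ℝ) = ∑ p ∈ S, Real.log p := by
      rw [Nat.cast_prod, Real.log_prod]
      intro p hp
      have := ((h1 S hS).1 p hp).pos
      positivity
    rw [h4] at h3
    have h5 : (Y : ℝ) * (1 / ((∏ p ∈ S, p : ℕ) : ℝ)) = Y / ((∏ p ∈ S, p : ℕ) : ℝ) := by ring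
    rw [h5]
    linarith
  -- step two
  have e2 : ∑ S ∈ L, (∑ p ∈ S, Real.log p) ≤
      ∑ T ∈ L, Chebyshev.theta ((Y : ℝ) * (1 / ((∏ p ∈ T, p : ℕ) : ℝ))) := by
    have e3 : ∑ S ∈ L, (∑ p ∈ S, Real.log p) =
        ∑ x ∈ L.sigma (fun S => S), Real.log x.2 := by
      rw [sum_sigma]
    have e4 : ∑ T ∈ L, Chebyshev.theta ((Y : ℝ) * (1 / ((∏ p ∈ T, p : ℕ) : ℝ))) =
        ∑ x ∈ L.sigma (fun T => (Ioc 0 ⌊(Y : ℝ) * (1 / ((∏ p ∈ T, p : ℕ) : ℝ))⌋₊).filter Nat.Prime),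
          Real.log x.2 := by
      rw [sum_sigma]
      refine sum_congr rfl fun T _ => ?_
      rw [Chebyshev.theta]
    rw [e3, e4]
    have hinj : Set.InjOn (fun x : (_ : Finset ℕ) × ℕ => (⟨x.1.erase x.2, x.2⟩ : (_ : Finset ℕ) × ℕ))
        (L.sigma (fun S => S) : Finset ((_ : Finset ℕ) × ℕ)) := by
      rintro ⟨S, p⟩ hS ⟨T, q⟩ hT hST
      simp only [coe_sigma, Set.mem_sigma_iff, mem_coe] at hS hT
      simp only [Sigma.mk.injEq, heq_eq_eq] at hST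
      obtain ⟨h3, h4⟩ := hST
      subst h4
      have : S = T := by
        rw [← insert_erase hS.2, ← insert_erase hT.2, h3]
      subst this
      rfl
    rw [← sum_image (f := fun x : (_ : Finset ℕ) × ℕ => Real.log x.2) hinj]
    refine sum_le_sum_of_subset_of_nonneg ?_ ?_
    · intro x hx
      rw [mem_image] at hx
      obtain ⟨⟨S, p⟩, hS, rfl⟩ := hx
      rw [mem_sigma] at hS
      simp only at hS
      rw [mem_sigma, mem_filter, mem_Ioc]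
      simp only
      have hp := (h1 S hS.1).1 p hS.2
      have hT : S.erase p ∈ L := h2 S hS.1 _ (erase_subset _ _)
      refine ⟨hT, ⟨hp.pos, ?_⟩, hp⟩
      apply Nat.le_floor
      have n0 := P0 _ hT
      rw [mul_one_div, le_div_iff₀ n0]
      have h3 : p * ∏ q ∈ S.erase p, q ≤ Y := by
        rw [mul_prod_erase S (fun q => q) hS.2]
        exact (h1 S hS.1).2
      exact_mod_cast h3
    · intro x _ _
      exact Real.log_natCast_nonneg _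
  have e5 : ∑ T ∈ L, Chebyshev.theta ((Y : ℝ) * (1 / ((∏ p ∈ T, p : ℕ) : ℝ))) ≤
      ∑ T ∈ L, Real.log 4 * ((Y : ℝ) * (1 / ((∏ p ∈ T, p : ℕ) : ℝ))) := by
    refine sum_le_sum fun T hT => Chebyshev.theta_le_log4_mul_x ?_
    have := P0 T hT
    positivity
  rw [← mul_sum, ← mul_sum] at e5
  rw [← mul_sum] at e1
  have : (1 + Real.log 4) * Y * ∑ S ∈ L, (1 : ℝ) / ((∏ p ∈ S, p : ℕ) : ℝ) =
    Real.log 4 * (Y * ∑ S ∈ L, (1 : ℝ) / ((∏ p ∈ S, p : ℕ) : ℝ)) +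
      Y * ∑ S ∈ L, (1 : ℝ) / ((∏ p ∈ S, p : ℕ) : ℝ) := by ring
  rw [this]
  linarith

open Pool.Agent.Y703.CX in
theorem t_SIE : S_SIE := by
  refine ⟨1 + Real.log 4, ?_, fun Y L hY h1 h2 => sie_core Y L hY h1 h2⟩
  have : 0 ≤ Real.log 4 := Real.log_nonneg (by norm_num)
  linarith

end Pool.Agent.Y488.CX
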